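import Pool.Agent.Helper9.MP.Lat

set_option autoImplicit false

/-! # GEN: small generators of `Γ₀(N)` (Schreier's lemma) -/

namespace Pool.Agent.Helper96.MP

open Complex MeasureTheory Filter Topology
open scoped MatrixGroups Pointwise

/-- coprimality in a residue class -/
theorem gen_cop (N c0 d1 : ℕ) (hc : 1 ≤ c0)
    (h : ∀ p : ℕ, p.Prime → p ∣ c0 → p ∣ d1 → p ∣ N → False) :
    ∃ k : ℕ, k ≤ c0 ∧ Nat.Coprime c0 (d1 + k * N) := by
  refine ⟨∏ p ∈ c0.primeFactors.filter (fun p => ¬ p ∣ d1), p, ?_, ?_⟩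
  · apply Nat.le_of_dvd hc
    exact (Finset.prod_dvd_prod_of_subset _ _ _ (Finset.filter_subset _ _)).trans
      (Nat.prod_primeFactors_dvd c0)
  · by_contra hcop
    obtain ⟨p, hp, hpc, hpd⟩ := Nat.Prime.not_coprime_iff_dvd.1 hcop
    by_cases hd : p ∣ d1
    · have h1 : p ∣ (∏ p ∈ c0.primeFactors.filter (fun p => ¬ p ∣ d1), p) * N :=
        (Nat.dvd_add_right hd).1 hpd
      rcases (Nat.Prime.dvd_mul hp).1 h1 with h2 | h2
      · obtain ⟨q, hq, hpq⟩ := (Prime.dvd_finsetProd_iff hp.prime _).1 h2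
        rw [Finset.mem_filter] at hq
        have hqp := (Nat.prime_dvd_prime_iff_eq hp (Nat.prime_of_mem_primeFactors hq.1)).1 hpq
        exact hq.2 (hqp ▸ hd)
      · exact h p hp hpc hd h2
    · have hmem : p ∈ c0.primeFactors.filter (fun p => ¬ p ∣ d1) := by
        rw [Finset.mem_filter]
        exact ⟨Nat.mem_primeFactors.2 ⟨hp, hpc, by omega⟩, hd⟩
      have h1 : p ∣ (∏ p ∈ c0.primeFactors.filter (fun p => ¬ p ∣ d1), p) * N :=
        Dvd.dvd.mul_right (Finset.dvd_prod_of_mem _ hmem) N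
      exact hd ((Nat.dvd_add_left h1).1 hpd)

theorem gen_rep (N : ℕ) (hN : 1 ≤ N) (g : SL(2, ℤ)) : ∃ g' : SL(2, ℤ),
    g' * g⁻¹ ∈ CongruenceSubgroup.Gamma0 N ∧ ∀ i j, |g' i j| ≤ 3 * (N : ℤ) ^ 3 := by
  have hdet : g 0 0 * g 1 1 - g 0 1 * g 1 0 = 1 := by
    have := g.2
    rwa [Matrix.det_fin_two] at this
  set c := g 1 0 with hc
  set d := g 1 1 with hd
  have hN0 : (0 : ℤ) < N := by exact_mod_cast hN
  obtain ⟨c0, hc0, hc1, hcN⟩ : ∃ c0 : ℕ, 1 ≤ c0 ∧ c0 ≤ N ∧ ∃ x : ℤ, (c0 : ℤ) = c + N * x := by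
    refine ⟨((c - 1) % N).toNat + 1, by omega, ?_, -((c - 1) / N), ?_⟩
    · have h1 := Int.emod_nonneg (c - 1) hN0.ne'
      have h2 := Int.emod_lt_of_pos (c - 1) hN0
      omega
    · have h1 := Int.emod_nonneg (c - 1) hN0.ne'
      push_cast
      rw [Int.toNat_of_nonneg h1]
      have h3 := Int.emod_add_mul_ediv (c - 1) N
      linarith
  obtain ⟨d1, hd1, hdN⟩ : ∃ d1 : ℕ, d1 ≤ N ∧ ∃ y : ℤ, (d1 : ℤ) = d + N * y := by
    refine ⟨(d % N).toNat, ?_, -(d / N), ?_⟩
    · have h1 := Int.emod_nonneg d hN0.ne'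
      have h2 := Int.emod_lt_of_pos d hN0
      omega
    · have h1 := Int.emod_nonneg d hN0.ne'
      rw [Int.toNat_of_nonneg h1]
      have h3 := Int.emod_add_mul_ediv d N
      linarith
  obtain ⟨x, hx⟩ := hcN
  obtain ⟨y, hy⟩ := hdN
  obtain ⟨k, hk, hcop⟩ := gen_cop N c0 d1 hc0 (by
    intro p hp h1 h2 h3
    have h1' : (p : ℤ) ∣ c0 := by exact_mod_cast h1
    have h2' : (p : ℤ) ∣ d1 := by exact_mod_cast h2
    have h3' : (p : ℤ) ∣ N := by exact_mod_cast h3
    have h4 : (p : ℤ) ∣ c := by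
      have : c = c0 - N * x := by linarith
      rw [this]
      exact dvd_sub h1' (h3'.mul_right _)
    have h5 : (p : ℤ) ∣ d := by
      have : d = d1 - N * y := by linarith
      rw [this]
      exact dvd_sub h2' (h3'.mul_right _)
    have h6 : (p : ℤ) ∣ 1 := by
      rw [← hdet]
      exact dvd_sub (h5.mul_left _) (h4.mul_left _)
    have h7 : p ∣ 1 := by exact_mod_cast h6
    exact hp.one_lt.ne' (Nat.dvd_one.1 h7))
  set d0 : ℕ := d1 + k * N with hd0
  have hd0N : (d0 : ℤ) ≤ N + N * N := by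
    have h1 : k * N ≤ N * N := Nat.mul_le_mul_right N (hk.trans hc1)
    have h2 : d0 ≤ N + N * N := by omega
    exact_mod_cast h2
  have hd00 : (0 : ℤ) ≤ d0 := Int.natCast_nonneg _
  have hc0' : (1 : ℤ) ≤ c0 := by exact_mod_cast hc0
  have hc1' : (c0 : ℤ) ≤ N := by exact_mod_cast hc1
  obtain ⟨v, u, huv⟩ := Nat.isCoprime_iff_coprime.2 hcop
  -- v * c0 + u * d0 = 1
  have ha0 := Int.emod_nonneg u (by omega : (c0 : ℤ) ≠ 0)
  have ha1 := Int.emod_lt_of_pos u (by omega : (0 : ℤ) < c0)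
  have ha2 := Int.emod_add_mul_ediv u c0
  set a0 := u % (c0 : ℤ) with ha
  set b0 := -(v + (u / (c0 : ℤ)) * d0) with hb
  have hdet0 : a0 * d0 - b0 * c0 = 1 := by
    rw [hb]
    linear_combination huv + (d0 : ℤ) * ha2
  have hbb : |b0| ≤ 3 * (N : ℤ) ^ 3 := by
    have h1 : b0 * c0 = a0 * d0 - 1 := by linarith
    have h2 : |b0| ≤ |b0 * c0| := by
      rw [abs_mul, abs_of_pos (by omega : (0 : ℤ) < c0)]
      nlinarith [abs_nonneg b0]
    have h3 : a0 * d0 ≤ N * (N + N * N) := mul_le_mul (by linarith) hd0N hd00 hN0.le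
    have h4 : 0 ≤ a0 * d0 := mul_nonneg ha0 hd00
    rw [h1] at h2
    refine h2.trans (abs_le.2 ⟨?_, ?_⟩)
    · have : (1 : ℤ) ≤ (N : ℤ) ^ 3 := one_le_pow₀ (by omega)
      linarith
    · have h5 : (N : ℤ) * (N + N * N) ≤ 2 * (N : ℤ) ^ 3 := by
        have : (N : ℤ) ^ 2 ≤ (N : ℤ) ^ 3 := pow_le_pow_right₀ (by omega) (by norm_num)
        nlinarith
      have : (1 : ℤ) ≤ (N : ℤ) ^ 3 := one_le_pow₀ (by omega)
      linarith
  have hN3 : (N : ℤ) ≤ (N : ℤ) ^ 3 := le_self_pow₀ (by omega) (by norm_num)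
  obtain ⟨M, hM00, hM01, hM10, hM11⟩ : ∃ M : SL(2, ℤ), M 0 0 = a0 ∧ M 0 1 = b0 ∧
      M 1 0 = (c0 : ℤ) ∧ M 1 1 = (d0 : ℤ) :=
    ⟨⟨!![a0, b0; (c0 : ℤ), (d0 : ℤ)], by rw [Matrix.det_fin_two_of]; exact hdet0⟩,
      rfl, rfl, rfl, rfl⟩
  refine ⟨M, ?_, ?_⟩
  · rw [CongruenceSubgroup.Gamma0_mem]
    have e : (M * g⁻¹) 1 0 = c0 * d - d0 * c := by
      rw [Matrix.SpecialLinearGroup.coe_mul, Matrix.mul_apply, Fin.sum_univ_two,
        Matrix.SpecialLinearGroup.SL2_inv_expl, hM10, hM11]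
      show (c0 : ℤ) * g 1 1 + (d0 : ℤ) * (-(g 1 0)) = _
      rw [← hc, ← hd]
      ring
    rw [e, ZMod.intCast_zmod_eq_zero_iff_dvd]
    refine ⟨x * d - (y + k) * c, ?_⟩
    rw [hd0]
    push_cast
    linear_combination d * hx - c * hy
  · intro i j
    fin_cases i <;> fin_cases j
    · show |M 0 0| ≤ _
      rw [hM00, abs_of_nonneg ha0]
      linarith
    · show |M 0 1| ≤ _
      rw [hM01]
      exact hbb
    · show |M 1 0| ≤ _
      rw [hM10, abs_of_nonneg (by omega)]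
      linarith
    · show |M 1 1| ≤ _
      rw [hM11, abs_of_nonneg hd00]
      have : (N : ℤ) * N ≤ (N : ℤ) ^ 3 := by
        have : (N : ℤ) ^ 2 ≤ (N : ℤ) ^ 3 := pow_le_pow_right₀ (by omega) (by norm_num)
        nlinarith
      linarith

/-- GEN -/
theorem st_GEN : ST_GEN := by
  intro N hN
  classical
  set Γ := CongruenceSubgroup.Gamma0 N with hΓ
  have hN1 : (1 : ℤ) ≤ (N : ℤ) ^ 3 := one_le_pow₀ (by exact_mod_cast hN)
  let f : Quotient (QuotientGroup.rightRel Γ) → SL(2, ℤ) := fun q =>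
    if q = Quotient.mk'' 1 then 1 else Classical.choose (gen_rep N hN q.out)
  have hf : ∀ q, Quotient.mk'' (f q) = q := by
    intro q
    show Quotient.mk'' (if q = Quotient.mk'' 1 then 1 else Classical.choose (gen_rep N hN q.out)) = q
    split_ifs with h
    · exact h.symm
    · have h1 := (Classical.choose_spec (gen_rep N hN q.out)).1
      have h2 : (Quotient.mk'' (Classical.choose (gen_rep N hN q.out)) :
          Quotient (QuotientGroup.rightRel Γ)) = Quotient.mk'' q.out := by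
        apply Quotient.sound'
        rw [QuotientGroup.rightRel_apply]
        have h3 := Γ.inv_mem h1
        rwa [mul_inv_rev, inv_inv] at h3
      rw [h2]
      exact Quotient.out_eq' q
  have hfb : ∀ q, ∀ i j, |f q i j| ≤ 3 * (N : ℤ) ^ 3 := by
    intro q i j
    show |(if q = Quotient.mk'' 1 then (1 : SL(2, ℤ)) else Classical.choose (gen_rep N hN q.out)) i j| ≤ _
    split_ifs with h
    · fin_cases i <;> fin_cases j <;> simp <;> linarith
    · exact (Classical.choose_spec (gen_rep N hN q.out)).2 i j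
  have hR : Subgroup.IsComplement (Γ : Set SL(2, ℤ)) (Set.range f) :=
    Subgroup.isComplement_range_right hf
  have h1R : (1 : SL(2, ℤ)) ∈ Set.range f := ⟨Quotient.mk'' 1, if_pos rfl⟩
  have key := Subgroup.closure_mul_image_eq hR h1R
    SpecialLinearGroup.SL2Z_generators
  apply le_antisymm
  · rw [Subgroup.closure_le]
    intro γ hγ
    exact hγ.1
  · refine le_trans (le_of_eq key.symm) (Subgroup.closure_mono ?_)
    rintro γ ⟨g, ⟨r, hr, s, hs, rfl⟩, rfl⟩
    obtain ⟨q, rfl⟩ := hr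
    obtain ⟨q', hq'⟩ := (hR.toRightFun (f q * s)).2
    refine ⟨?_, ?_⟩
    · have := hR.mul_inv_toRightFun_mem (f q * s)
      exact this
    · have hsb : ∀ j, ∀ i, |s i j| ≤ 1 := by
        intro j i
        rcases hs with rfl | hs
        · fin_cases i <;> fin_cases j <;> simp [ModularGroup.S]
        · rw [Set.mem_singleton_iff] at hs
          subst hs
          fin_cases i <;> fin_cases j <;> simp [ModularGroup.T]
      show |((f q * s) * ((hR.toRightFun (f q * s) : SL(2, ℤ)))⁻¹) 1 0| ≤ _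
      rw [← hq']
      have e : ((f q * s) * (f q')⁻¹) 1 0 = (f q 1 0 * s 0 0 + f q 1 1 * s 1 0) * f q' 1 1
          - (f q 1 0 * s 0 1 + f q 1 1 * s 1 1) * f q' 1 0 := by
        rw [Matrix.SpecialLinearGroup.coe_mul, Matrix.mul_apply, Fin.sum_univ_two,
          Matrix.SpecialLinearGroup.SL2_inv_expl, Matrix.SpecialLinearGroup.coe_mul,
          Matrix.mul_apply, Matrix.mul_apply, Fin.sum_univ_two, Fin.sum_univ_two]
        simp only [Matrix.of_apply, Matrix.cons_val', Matrix.cons_val_zero, Matrix.cons_val_one,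
          Matrix.cons_val_fin_one, Matrix.SpecialLinearGroup.coe_mk]
        ring
      rw [e]
      set E : ℤ := 3 * (N : ℤ) ^ 3 with hE
      have hE0 : 0 ≤ E := by linarith
      have hb : ∀ j, |f q 1 0 * s 0 j + f q 1 1 * s 1 j| ≤ 2 * E := by
        intro j
        refine (abs_add_le _ _).trans ?_
        rw [abs_mul, abs_mul]
        have h1 := mul_le_mul (hfb q 1 0) (hsb j 0) (abs_nonneg _) hE0
        have h2 := mul_le_mul (hfb q 1 1) (hsb j 1) (abs_nonneg _) hE0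
        linarith
      refine (abs_sub _ _).trans ?_
      rw [abs_mul, abs_mul]
      have h1 := mul_le_mul (hb 0) (hfb q' 1 1) (abs_nonneg _) (by linarith)
      have h2 := mul_le_mul (hb 1) (hfb q' 1 0) (abs_nonneg _) (by linarith)
      have h3 : 4 * (E * E) ≤ 100 * (N : ℤ) ^ 10 := by
        have h4 : E * E = 9 * (N : ℤ) ^ 6 := by rw [hE]; ring
        have h5 : (N : ℤ) ^ 6 ≤ (N : ℤ) ^ 10 :=
          pow_le_pow_right₀ (by exact_mod_cast hN) (by norm_num)
        have h6 : 0 ≤ (N : ℤ) ^ 6 := by positivity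
        rw [h4]
        linarith
      linarith

end Pool.Agent.Helper96.MP
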